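import Pool.Agent.JT.PTime

/-! An explicit polynomial time language: many words are hashed with one seed, and the word
contains the hash values. -/

namespace Pool.Agent.PL44

open Pool.Agent.PolyTime Pool.Agent.JT

/-- the unit: a word of length `N` consists of `B` blocks of length `Δ u`, `k` coefficients of
length `M Δ u`, `B` hash values of length `u`, and at most `B Δ + k M Δ + B` further bits -/
def un (k M Δ B : ℕ) (w : List Bool) : ℕ := w.length / (B * Δ + k * (M * Δ) + B)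

/-- coefficient of `T^i` in the polynomial of block `b` -/
def xb (k M Δ B : ℕ) (w : List Bool) (b i : ℕ) : ℕ :=
  if i < Δ * un k M Δ B w then (w.getD (b * (Δ * un k M Δ B w) + i) false).toNat else 0

/-- coefficient of `T^i` in the `j`-th coefficient polynomial -/
def ab (k M Δ B : ℕ) (w : List Bool) (j i : ℕ) : ℕ :=
  if i < M * (Δ * un k M Δ B w) then
    (w.getD (B * (Δ * un k M Δ B w) + j * (M * (Δ * un k M Δ B w)) + i) false).toNat else 0

/-- bit `i` of the hash value of block `b` -/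
def sb (k M Δ B : ℕ) (w : List Bool) (b i : ℕ) : ℕ :=
  (w.getD (B * (Δ * un k M Δ B w) + k * (M * (Δ * un k M Δ B w)) + b * un k M Δ B w + i)
    false).toNat

/-- coefficient of `T^c` in the `j`-th power of the polynomial of block `b`, modulo 2 -/
def pw (k M Δ B : ℕ) (w : List Bool) (b : ℕ) : ℕ → ℕ → ℕ
  | 0, c => if c = 0 then 1 else 0
  | j + 1, c => (∑ i ∈ Finset.range (c + 1),
      xb k M Δ B w b i * pw k M Δ B w b j (c - i)) % 2

/-- coefficient of `T^c` in `∑ j < k, a_j(T) x(T)^j` modulo 2, where `x` is block `b` -/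
def vl (k M Δ B : ℕ) (w : List Bool) (b c : ℕ) : ℕ :=
  (∑ j ∈ Finset.range k, ∑ i ∈ Finset.range (c + 1),
    ab k M Δ B w j i * pw k M Δ B w b j (c - i)) % 2

/-- the language: all hash values are right -/
def lang (k M Δ B : ℕ) (w : List Bool) : Prop :=
  ∀ b < B, ∀ c < un k M Δ B w,
    vl k M Δ B w b (M * (Δ * un k M Δ B w) - 1 - c) = sb k M Δ B w b c

instance (k M Δ B : ℕ) : DecidablePred (lang k M Δ B) := fun w => by unfold lang; infer_instance

section ptime

variable (k M Δ B : ℕ)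

lemma pf_un {α : Type} [Ctx α] : PF (fun w (_ : α) => un k M Δ B w) :=
  PF.div PF.len (PF.const _)

lemma pf_n {α : Type} [Ctx α] : PF (fun w (_ : α) => Δ * un k M Δ B w) :=
  (PF.const Δ).mul (pf_un k M Δ B)

lemma pf_xb {α : Type} [Ctx α] {b A : List Bool → α → ℕ} (hb : PF b) (hA : PF A) :
    PF (fun w a => xb k M Δ B w (b w a) (A w a)) :=
  PF.ite (PD.lt hA (pf_n k M Δ B)) (PF.inp ((hb.mul (pf_n k M Δ B)).add hA)) (PF.const 0)

lemma pf_ab (j : ℕ) {α : Type} [Ctx α] {A : List Bool → α → ℕ} (hA : PF A) :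
    PF (fun w a => ab k M Δ B w j (A w a)) :=
  PF.ite (PD.lt hA ((PF.const M).mul (pf_n k M Δ B)))
    (PF.inp ((((PF.const B).mul (pf_n k M Δ B)).add
      ((PF.const j).mul ((PF.const M).mul (pf_n k M Δ B)))).add hA))
    (PF.const 0)

lemma pf_sb {α : Type} [Ctx α] {b A : List Bool → α → ℕ} (hb : PF b) (hA : PF A) :
    PF (fun w a => sb k M Δ B w (b w a) (A w a)) :=
  PF.inp (((((PF.const B).mul (pf_n k M Δ B)).add
    ((PF.const k).mul ((PF.const M).mul (pf_n k M Δ B)))).add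
      (hb.mul (pf_un k M Δ B))).add hA)

lemma pf_pw (j : ℕ) : ∀ {α : Type} [Ctx α] {b A : List Bool → α → ℕ}, PF b → PF A →
    PF (fun w a => pw k M Δ B w (b w a) j (A w a)) := by
  induction j with
  | zero =>
    intro α _ b A hb hA
    exact PF.ite (PD.eq hA (PF.const 0)) (PF.const 1) (PF.const 0)
  | succ j ih =>
    intro α _ b A hb hA
    have h1 : PF (fun w (p : α × ℕ) => xb k M Δ B w (b w p.1) p.2 *
        pw k M Δ B w (b w p.1) j (A w p.1 - p.2)) :=
      (pf_xb k M Δ B hb.fst PF.snd).mul (ih hb.fst (hA.fst.sub PF.snd))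
    exact ((PF.sum (hA.add (PF.const 1)) h1).mod (PF.const 2))

lemma pf_vl {α : Type} [Ctx α] {b A : List Bool → α → ℕ} (hb : PF b) (hA : PF A) :
    PF (fun w a => vl k M Δ B w (b w a) (A w a)) := by
  have h1 : ∀ j, PF (fun w a => ∑ i ∈ Finset.range (A w a + 1),
      ab k M Δ B w j i * pw k M Δ B w (b w a) j (A w a - i)) := by
    intro j
    have h2 : PF (fun w (p : α × ℕ) => ab k M Δ B w j p.2 *
        pw k M Δ B w (b w p.1) j (A w p.1 - p.2)) :=
      (pf_ab k M Δ B j PF.snd).mul (pf_pw k M Δ B j hb.fst (hA.fst.sub PF.snd))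
    exact PF.sum (hA.add (PF.const 1)) h2
  exact (pf_finsum (fun j w a => ∑ i ∈ Finset.range (A w a + 1),
      ab k M Δ B w j i * pw k M Δ B w (b w a) j (A w a - i)) h1 k).mod (PF.const 2)

lemma pd_lang : PD (fun w (_ : Unit) => lang k M Δ B w) := by
  have h1 : PD (fun w (q : (Unit × ℕ) × ℕ) => vl k M Δ B w q.1.2
      (M * (Δ * un k M Δ B w) - 1 - q.2) = sb k M Δ B w q.1.2 q.2) :=
    PD.eq (pf_vl k M Δ B PF.snd.fst
      ((((PF.const M).mul (pf_n k M Δ B)).sub (PF.const 1)).sub PF.snd))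
      (pf_sb k M Δ B PF.snd.fst PF.snd)
  have h2 : PD (fun w (p : Unit × ℕ) => ∀ c < un k M Δ B w, vl k M Δ B w p.2
      (M * (Δ * un k M Δ B w) - 1 - c) = sb k M Δ B w p.2 c) :=
    PD.forall_lt (pf_un k M Δ B) h1
  exact PD.forall_lt (PF.const B) h2

theorem lang_polyTime : Nonempty (Turing.TM2ComputableInPolyTime
    (id : List Bool → List Bool) (id : List Bool → List Bool)
    (fun w => [decide (lang k M Δ B w)])) := by
  apply PFBits.polyTime
  refine ⟨fun _ => 1, fun w _ => if lang k M Δ B w then 1 else 0, PF.const 1, ?_, ?_⟩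
  · exact PF.ite (P := fun w (_ : Unit × ℕ) => lang k M Δ B w)
      (PD.congr (PD.fst (α := Unit) (pd_lang k M Δ B)) (fun _ _ => Iff.rfl))
      (PF.const 1) (PF.const 0)
  · intro w
    by_cases h : lang k M Δ B w <;> simp [h]

end ptime

/-! ### Description by power series -/

section series

open PowerSeries

variable {k M Δ B u : ℕ} {w : List Bool}

lemma cast_xb (hu : un k M Δ B w = u) (b : ℕ) (x : Fin (Δ * u) → Bool)
    (hx : ∀ i : Fin (Δ * u), w.getD (b * (Δ * u) + i) false = x i) (i : ℕ) :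
    ((xb k M Δ B w b i : ℕ) : ZMod 2) = coeff i (ser (fun i => zb (x i))) := by
  rw [coeff_ser]
  unfold xb
  rw [hu]
  by_cases h : i < Δ * u
  · rw [if_pos h, dif_pos h, cast_toNat, ← hx ⟨i, h⟩]
  · rw [if_neg h, dif_neg h, Nat.cast_zero]

lemma cast_ab (hu : un k M Δ B w = u) (a : Fin k → Fin (M * (Δ * u)) → Bool)
    (ha : ∀ (j : Fin k) (i : Fin (M * (Δ * u))),
      w.getD (B * (Δ * u) + j * (M * (Δ * u)) + i) false = a j i)
    (j : Fin k) (i : ℕ) :
    ((ab k M Δ B w j i : ℕ) : ZMod 2) = coeff i (ser (fun i => zb (a j i))) := by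
  rw [coeff_ser]
  unfold ab
  rw [hu]
  by_cases h : i < M * (Δ * u)
  · rw [if_pos h, dif_pos h, cast_toNat, ← ha j ⟨i, h⟩]
  · rw [if_neg h, dif_neg h, Nat.cast_zero]

lemma cast_pw (hu : un k M Δ B w = u) (b : ℕ) (x : Fin (Δ * u) → Bool)
    (hx : ∀ i : Fin (Δ * u), w.getD (b * (Δ * u) + i) false = x i) (j c : ℕ) :
    ((pw k M Δ B w b j c : ℕ) : ZMod 2) = coeff c (ser (fun i => zb (x i)) ^ j) := by
  induction j generalizing c with
  | zero =>
    rw [pow_zero, coeff_one, pw]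
    split_ifs <;> simp
  | succ j ih =>
    rw [pow_succ', coeff_mul, Finset.Nat.sum_antidiagonal_eq_sum_range_succ_mk, pw,
      ZMod.natCast_mod, Nat.cast_sum]
    refine Finset.sum_congr rfl fun i _ => ?_
    rw [Nat.cast_mul, ih, cast_xb hu b x hx]

lemma cast_vl (hu : un k M Δ B w = u) (b : ℕ) (x : Fin (Δ * u) → Bool)
    (a : Fin k → Fin (M * (Δ * u)) → Bool)
    (hx : ∀ i : Fin (Δ * u), w.getD (b * (Δ * u) + i) false = x i)
    (ha : ∀ (j : Fin k) (i : Fin (M * (Δ * u))),
      w.getD (B * (Δ * u) + j * (M * (Δ * u)) + i) false = a j i) (c : ℕ) :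
    ((vl k M Δ B w b c : ℕ) : ZMod 2) =
      coeff c (pval (fun j i => zb (a j i)) (fun i => zb (x i))) := by
  unfold vl pval
  rw [ZMod.natCast_mod, Nat.cast_sum, map_sum, Finset.sum_range]
  refine Finset.sum_congr rfl fun j _ => ?_
  rw [coeff_mul, Finset.Nat.sum_antidiagonal_eq_sum_range_succ_mk, Nat.cast_sum]
  refine Finset.sum_congr rfl fun i _ => ?_
  rw [Nat.cast_mul, cast_pw hu b x hx, cast_ab hu a ha]

/-- the hash value of `x` under the seed `a` -/
noncomputable def hv {n m k : ℕ} (u : ℕ) (a : Fin k → Fin m → Bool) (x : Fin n → Bool) :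
    Fin u → Bool := fun c => decide
      (coeff (m - 1 - c) (pval (fun j i => zb (a j i)) (fun i => zb (x i))) = 1)

lemma eq_iff_zmod (v : ℕ) (hv : v < 2) (s : Bool) (z : ZMod 2) (h : ((v : ℕ) : ZMod 2) = z) :
    v = s.toNat ↔ s = decide (z = 1) := by
  subst h
  interval_cases v <;> cases s <;> decide

lemma block_iff (hu : un k M Δ B w = u) (b : ℕ) (x : Fin (Δ * u) → Bool)
    (a : Fin k → Fin (M * (Δ * u)) → Bool) (s : Fin u → Bool)
    (hx : ∀ i : Fin (Δ * u), w.getD (b * (Δ * u) + i) false = x i)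
    (ha : ∀ (j : Fin k) (i : Fin (M * (Δ * u))),
      w.getD (B * (Δ * u) + j * (M * (Δ * u)) + i) false = a j i)
    (hs : ∀ i : Fin u, w.getD (B * (Δ * u) + k * (M * (Δ * u)) + b * u + i) false = s i) :
    (∀ c < u, vl k M Δ B w b (M * (Δ * u) - 1 - c) = sb k M Δ B w b c) ↔ s = hv u a x := by
  have h1 : ∀ c : Fin u, vl k M Δ B w b (M * (Δ * u) - 1 - c) = sb k M Δ B w b c ↔
      s c = hv u a x c := by
    intro c
    have h2 := cast_vl hu b x a hx ha (M * (Δ * u) - 1 - c)
    have h3 : sb k M Δ B w b c = (s c).toNat := by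
      unfold sb
      rw [hu, hs c]
    rw [h3]
    exact eq_iff_zmod _ (Nat.mod_lt _ (by norm_num)) _ _ h2
  constructor
  · intro h
    funext c
    exact (h1 c).1 (h c c.2)
  · intro h c hc
    exact (h1 ⟨c, hc⟩).2 (congrFun h _)

end series

end Pool.Agent.PL44
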