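import Pool.Agent.PL44.Transfer

/-! The transfer theorem. -/

namespace Pool.Agent.PL44

open Pool.Agent.JT hiding paste
open Pool.Agent.SemRO (mix RectFree)
open Pool.Agent.PT44 (paste card_slices card_rest)
open Filter

/-- decided in polynomial time by a Turing machine (Mathlib's `TM2` model) -/
def PolyTime (L : List Bool → Prop) : Prop :=
  ∃ f : List Bool → Bool, (∀ w, f w = true ↔ L w) ∧
    Nonempty (Turing.TM2ComputableInPolyTime (id : List Bool → List Bool)
      (id : List Bool → List Bool) (fun w => [f w]))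

open Classical in
/-- **Transfer theorem.** For every `k0` and `c > 0` there is `k'` such that for all `ε0 > 0` there
is a polynomial time language with the following property: for every set `Y` of at least `c N`
variables, every dense set `G` of words of the language, and every function that counts at most
`k0 N` reads of variables in `Y` for every word of `G`, there are a subset `Y'` of `Y` of linear
size and an assignment `base` of the other variables such that the language is rectangle-free over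
`base`, and many words of `G` over `base` have at most `k' |Y'|` reads in `Y'`. -/
theorem transfer (k0 : ℕ) (c : ℝ) (hc : 0 < c) : ∃ k' : ℕ, ∀ ε0 : ℝ, 0 < ε0 →
    ∃ (t : ℕ) (L : List Bool → Prop), PolyTime L ∧ ∃ ε : ℝ, 0 < ε ∧ ∃ c' : ℝ, 0 < c' ∧
    ∀ᶠ N : ℕ in atTop, ∀ Y : Finset (Fin N), c * N ≤ Y.card →
      ∀ (G : Finset (Fin N → Bool)) (wt : (Fin N → Bool) → Fin N → ℕ),
      (∀ y ∈ G, L (List.ofFn y)) → (∀ y ∈ G, ∑ i ∈ Y, wt y i ≤ k0 * N) →
      (2 : ℝ) ^ (-(ε * N)) *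
        ((Finset.univ.filter (fun y : Fin N → Bool => L (List.ofFn y))).card : ℝ) ≤ G.card →
      ∃ Y' : Finset (Fin N), Y' ⊆ Y ∧ c' * N ≤ Y'.card ∧ ∃ base : {i // i ∉ Y'} → Bool,
        RectFree {x : Fin Y'.card → Bool | L (List.ofFn (paste Y' base x))} t ∧
        (2 : ℝ) ^ Y'.card * Real.exp (-(ε0 * Y'.card)) ≤
          ((Finset.univ.filter (fun x : Fin Y'.card → Bool => paste Y' base x ∈ G ∧
            ∑ i ∈ Y', wt (paste Y' base x) i ≤ k' * Y'.card)).card : ℝ) := by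
  obtain ⟨k', hk'⟩ := exists_nat_ge (2 * (k0 : ℝ) / c)
  rw [div_le_iff₀ hc] at hk'
  refine ⟨k', fun ε0 hε0 => ?_⟩
  -- constants
  obtain ⟨Δ, hΔ⟩ := exists_nat_ge (16 / (ε0 * c) + 12 / c + 1)
  have hΔ1 : 16 / (ε0 * c) ≤ Δ := by
    have : (0 : ℝ) ≤ 12 / c := by positivity
    linarith
  have hΔ2 : 12 / c ≤ Δ := by
    have : (0 : ℝ) ≤ 16 / (ε0 * c) := by positivity
    linarith
  have hΔ3 : (1 : ℝ) ≤ Δ := by
    have : (0 : ℝ) ≤ 16 / (ε0 * c) := by positivity
    have : (0 : ℝ) ≤ 12 / c := by positivity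
    linarith
  rw [div_le_iff₀ (by positivity)] at hΔ1
  rw [div_le_iff₀ hc] at hΔ2
  have hΔ4 : 1 ≤ Δ := by exact_mod_cast hΔ3
  obtain ⟨t, ht⟩ : ∃ t : ℕ, t = 8 * Δ := ⟨_, rfl⟩
  obtain ⟨M, hM⟩ : ∃ M : ℕ, M = t * t * (t * t) + 1 := ⟨_, rfl⟩
  obtain ⟨B, hB⟩ := exists_nat_ge (12 * ((t * t * M : ℕ) : ℝ) / c + 1)
  have hB1 : 12 * ((t * t * M : ℕ) : ℝ) / c ≤ B := by linarith
  have hB2 : (1 : ℝ) ≤ B := by
    have : (0 : ℝ) ≤ 12 * ((t * t * M : ℕ) : ℝ) / c := by positivity
    linarith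
  rw [div_le_iff₀ hc] at hB1
  have hB3 : 1 ≤ B := by exact_mod_cast hB2
  obtain ⟨D, hD⟩ : ∃ D : ℕ, D = B * Δ + t * t * (M * Δ) + B := ⟨_, rfl⟩
  have hDpos : 0 < D := by omega
  have hDr : (0 : ℝ) < D := by exact_mod_cast hDpos
  obtain ⟨U0, hU0⟩ := exists_nat_ge (12 * (D : ℝ) / c + 2 * B + 2)
  have hU1 : 12 * (D : ℝ) / c ≤ U0 := by linarith
  have hU2 : 2 * (B : ℝ) + 2 ≤ U0 := by
    have : (0 : ℝ) ≤ 12 * (D : ℝ) / c := by positivity
    linarith
  rw [div_le_iff₀ hc] at hU1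
  have hU3 : 2 * B + 2 ≤ U0 := by exact_mod_cast hU2
  refine ⟨t, lang (t * t) M Δ B, ⟨fun w => decide (lang (t * t) M Δ B w), fun w => by simp,
    lang_polyTime _ _ _ _⟩, 1 / (4 * D), by positivity, c / (8 * D), by positivity, ?_⟩
  have hdiv := Nat.tendsto_div_const_atTop hDpos.ne'
  filter_upwards [hdiv.eventually (eventually_ge_atTop U0)] with N hN Y hY G wt hG hwt hbig
  obtain ⟨u, hu⟩ : ∃ u, u = N / D := ⟨_, rfl⟩
  rw [← hu] at hN
  have hdims : Dims N B (Δ * u) (t * t) (M * (Δ * u)) u := dims_of_div (by rw [hu, hD])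
  have hL : ∀ y : Fin N → Bool, lang (t * t) M Δ B (List.ofFn y) ↔ Right hdims y := fun y =>
    lang_iff (by rw [hu, hD]) hdims y
  have hu1 : 2 * B + 2 ≤ u := by omega
  have hu1' : 2 * (B : ℝ) + 2 ≤ u := by exact_mod_cast hu1
  have hupos : (0 : ℝ) < u := by
    have : (0 : ℝ) ≤ B := Nat.cast_nonneg _
    linarith
  have huD : u * D ≤ N := by rw [hu]; exact Nat.div_mul_le_self _ _
  have huD' : N < u * D + D := by
    have h1 := Nat.div_add_mod N D
    have h2 := Nat.mod_lt N hDpos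
    rw [← hu, mul_comm] at h1
    omega
  have hN0 : 0 < N := by
    have : 0 < u * D := by
      apply Nat.mul_pos _ hDpos
      omega
    omega
  have hNr : (0 : ℝ) < N := by exact_mod_cast hN0
  -- N ≤ 2 D u
  have hN2 : (N : ℝ) ≤ 2 * (D * u) := by
    have h1 : N ≤ 2 * (D * u) := by
      have h2 : D ≤ u * D := Nat.le_mul_of_pos_left _ (by omega)
      have h3 : D * u = u * D := mul_comm _ _
      omega
    exact_mod_cast h1
  have hεN : 1 / (4 * (D : ℝ)) * N ≤ u / 2 := by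
    calc 1 / (4 * (D : ℝ)) * N ≤ 1 / (4 * (D : ℝ)) * (2 * (D * u)) :=
          mul_le_mul_of_nonneg_left hN2 (by positivity)
      _ = u / 2 := by field_simp; ring
  -- the rest is small
  have hBn : B * (Δ * u) ≤ N := by
    have := hdims.le
    omega
  have hrest : ((N - B * (Δ * u) : ℕ) : ℝ) ≤ c / 4 * N := by
    rw [Nat.cast_sub hBn]
    have h1 : (N : ℝ) ≤ u * D + D := by exact_mod_cast huD'.le
    have h2 : (u : ℝ) * D ≤ N := by exact_mod_cast huD
    have h3 : (D : ℝ) = B * Δ + t * t * (M * Δ) + B := by rw [hD]; push_cast; ring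
    have h4 : (0 : ℝ) ≤ u * (t * t * (M * Δ) + B) := by positivity
    have h5 : (B : ℝ) * Δ * u ≤ N := by
      have : (u : ℝ) * D = B * Δ * u + u * (t * t * (M * Δ) + B) := by rw [h3]; ring
      linarith
    -- three error terms
    have e1 : (t : ℝ) * t * (M * Δ) * u ≤ c / 12 * (B * Δ * u) := by
      have h6 : (t : ℝ) * t * M ≤ c / 12 * B := by
        push_cast at hB1
        linarith
      calc (t : ℝ) * t * (M * Δ) * u = (t * t * M) * (Δ * u) := by ring
        _ ≤ (c / 12 * B) * (Δ * u) := mul_le_mul_of_nonneg_right h6 (by positivity)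
        _ = _ := by ring
    have e2 : (B : ℝ) * u ≤ c / 12 * (B * Δ * u) := by
      have h6 : (1 : ℝ) ≤ c / 12 * Δ := by linarith
      calc (B : ℝ) * u = 1 * (B * u) := by ring
        _ ≤ (c / 12 * Δ) * (B * u) := mul_le_mul_of_nonneg_right h6 (by positivity)
        _ = _ := by ring
    have e3 : (D : ℝ) ≤ c / 12 * (B * Δ * u) := by
      have h6 : (U0 : ℝ) ≤ u := by exact_mod_cast hN
      have h7 : (D : ℝ) ≤ c / 12 * u := by
        have : (U0 : ℝ) * c ≤ u * c := mul_le_mul_of_nonneg_right h6 hc.le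
        linarith
      have h8 : (1 : ℝ) ≤ B * Δ := by nlinarith
      calc (D : ℝ) ≤ c / 12 * u := h7
        _ = 1 * (c / 12 * u) := by ring
        _ ≤ (B * Δ) * (c / 12 * u) := mul_le_mul_of_nonneg_right h8 (by positivity)
        _ = _ := by ring
    have e4 : c / 12 * (B * Δ * u) ≤ c / 12 * N := mul_le_mul_of_nonneg_left h5 (by positivity)
    push_cast
    have h6 : (u : ℝ) * D = B * Δ * u + (t * t * (M * Δ) * u + B * u) := by rw [h3]; ring
    have h7 : (B : ℝ) * (Δ * u) = B * Δ * u := by ring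
    rw [h7]
    linarith
  -- numbers of words
  obtain ⟨Z, hZ⟩ : ∃ Z, Z = Finset.univ.filter (fun y : Fin N → Bool => Right hdims y) := ⟨_, rfl⟩
  have hZe : (Finset.univ.filter (fun y : Fin N → Bool => lang (t * t) M Δ B (List.ofFn y))) = Z := by
    rw [hZ]
    apply Finset.filter_congr
    intro y _
    exact hL y
  replace hbig : (2 : ℝ) ^ (-(1 / (4 * (D : ℝ)) * N)) * (Z.card : ℝ) ≤ G.card := by
    rw [← hZe]
    convert hbig
  have hZpos : 0 < Z.card := by
    apply Finset.card_pos.2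
    refine ⟨setSh hdims (fun _ => false) (hs hdims (fun _ => false)), ?_⟩
    rw [hZ]
    exact Finset.mem_filter.2 ⟨Finset.mem_univ _, right_fix hdims _⟩
  have hZr : (0 : ℝ) < Z.card := by exact_mod_cast hZpos
  have hexp : (Δ * u) * (2 * t + 1) + u + 2 * u ≤ u * (t * t) := by
    have h1 : Δ * (2 * t + 1) + 3 ≤ t * t := by
      rw [ht]
      nlinarith
    calc (Δ * u) * (2 * t + 1) + u + 2 * u = u * (Δ * (2 * t + 1) + 3) := by ring
      _ ≤ u * (t * t) := Nat.mul_le_mul_left _ h1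
  have hmm : (Δ * u) * (t * t) * (t * t) + u ≤ M * (Δ * u) := by
    have h1 : M * (Δ * u) = (Δ * u) * (t * t) * (t * t) + Δ * u := by rw [hM]; ring
    have h2 : u ≤ Δ * u := Nat.le_mul_of_pos_left _ hΔ4
    omega
  have hbad := card_bad hdims hmm hexp
  rw [← hZ] at hbad
  obtain ⟨Zb, hZb⟩ : ∃ Zb, Zb = Finset.univ.filter (fun y : Fin N → Bool => Right hdims y ∧
    Bad (Δ * u) t u (M * (Δ * u)) (sa hdims y)) := ⟨_, rfl⟩
  rw [← hZb] at hbad
  -- good part of G
  obtain ⟨G1, hG1⟩ : ∃ G1, G1 = G.filter (fun y => ¬ Bad (Δ * u) t u (M * (Δ * u)) (sa hdims y)) :=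
    ⟨_, rfl⟩
  have hGR : ∀ y ∈ G, Right hdims y := fun y hy => (hL y).1 (hG y hy)
  have hsplit : G.card ≤ G1.card + Zb.card := by
    have h1 : G ⊆ G1 ∪ Zb := by
      intro y hy
      by_cases hb : Bad (Δ * u) t u (M * (Δ * u)) (sa hdims y)
      · apply Finset.mem_union_right
        rw [hZb]
        exact Finset.mem_filter.2 ⟨Finset.mem_univ _, hGR y hy, hb⟩
      · apply Finset.mem_union_left
        rw [hG1]
        exact Finset.mem_filter.2 ⟨hy, hb⟩
    exact (Finset.card_le_card h1).trans (Finset.card_union_le _ _)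
  obtain ⟨E, hE⟩ : ∃ E : ℝ, E = (2 : ℝ) ^ (-(1 / (4 * (D : ℝ)) * N)) := ⟨_, rfl⟩
  rw [← hE] at hbig
  have hElow : (2 : ℝ) ^ (-((u : ℝ) / 2)) ≤ E := by
    rw [hE]
    apply Real.rpow_le_rpow_of_exponent_le (by norm_num)
    linarith
  have hEpos : 0 < E := by rw [hE]; positivity
  have hZbr : (Zb.card : ℝ) ≤ E / 2 * Z.card := by
    have h1 : (Zb.card : ℝ) * 2 ^ (2 * u) ≤ Z.card := by exact_mod_cast hbad
    have h2 : (1 : ℝ) ≤ E / 2 * 2 ^ (2 * u) := by
      have h3 : (2 : ℝ) ^ (2 * u) = 2 ^ (2 * (u : ℝ)) := by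
        rw [← Real.rpow_natCast]; push_cast; rfl
      have h4 : (2 : ℝ) ^ (1 : ℝ) ≤ 2 ^ (-((u : ℝ) / 2)) * 2 ^ (2 * (u : ℝ)) := by
        rw [← Real.rpow_add (by norm_num)]
        apply Real.rpow_le_rpow_of_exponent_le (by norm_num)
        linarith
      rw [Real.rpow_one] at h4
      rw [h3]
      have h5 : (0 : ℝ) < 2 ^ (2 * (u : ℝ)) := by positivity
      have := mul_le_mul_of_nonneg_right hElow h5.le
      linarith
    have h3 : (Zb.card : ℝ) ≤ (Zb.card : ℝ) * (E / 2 * 2 ^ (2 * u)) :=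
      le_mul_of_one_le_right (Nat.cast_nonneg _) h2
    calc (Zb.card : ℝ) ≤ (Zb.card : ℝ) * (E / 2 * 2 ^ (2 * u)) := h3
      _ = E / 2 * (Zb.card * 2 ^ (2 * u)) := by ring
      _ ≤ E / 2 * Z.card := mul_le_mul_of_nonneg_left h1 (by positivity)
  have hG1c : E / 2 * Z.card ≤ G1.card := by
    have h1 : (G.card : ℝ) ≤ G1.card + Zb.card := by exact_mod_cast hsplit
    have h2 : E * Z.card = E / 2 * Z.card + E / 2 * Z.card := by ring
    linarith
  -- blocks
  have hblk : ∀ y ∈ G1, ∃ b : Fin B, c / 4 * ((Δ * u : ℕ) : ℝ) ≤ (Y ∩ Blk hdims b).card ∧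
      ∑ i ∈ Y ∩ Blk hdims b, wt y i ≤ k' * (Y ∩ Blk hdims b).card := by
    intro y hy
    rw [hG1] at hy
    exact exists_block hdims Y (wt y) hc hk' hN0 hY hrest hBn (hwt y (Finset.mem_filter.1 hy).1)
  let Gb : Fin B → Finset (Fin N → Bool) := fun b => G1.filter (fun y =>
    c / 4 * ((Δ * u : ℕ) : ℝ) ≤ (Y ∩ Blk hdims b).card ∧
      ∑ i ∈ Y ∩ Blk hdims b, wt y i ≤ k' * (Y ∩ Blk hdims b).card)
  have hcov : G1 ⊆ (Finset.univ : Finset (Fin B)).biUnion Gb := by
    intro y hy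
    obtain ⟨b, hb⟩ := hblk y hy
    exact Finset.mem_biUnion.2 ⟨b, Finset.mem_univ _, Finset.mem_filter.2 ⟨hy, hb⟩⟩
  obtain ⟨b, hb⟩ : ∃ b, (G1.card : ℝ) ≤ B * (Gb b).card := by
    by_contra hno
    push Not at hno
    have h1 : (G1.card : ℝ) ≤ ∑ b : Fin B, ((Gb b).card : ℝ) := by
      have := (Finset.card_le_card hcov).trans Finset.card_biUnion_le
      exact_mod_cast this
    have h2 : (B : ℝ) * ∑ b : Fin B, ((Gb b).card : ℝ) < B * G1.card := by
      rw [Finset.mul_sum]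
      have h3 : ∑ b : Fin B, (B : ℝ) * ((Gb b).card : ℝ) < ∑ _b : Fin B, (G1.card : ℝ) := by
        apply Finset.sum_lt_sum_of_nonempty
        · exact ⟨⟨0, hB3⟩, Finset.mem_univ _⟩
        · intro b _
          exact hno b
      rwa [Finset.sum_const, Finset.card_univ, Fintype.card_fin, nsmul_eq_mul] at h3
    have h3 : (B : ℝ) * G1.card ≤ B * ∑ b : Fin B, ((Gb b).card : ℝ) :=
      mul_le_mul_of_nonneg_left h1 (by positivity)
    linarith
  have hG1pos : (0 : ℝ) < G1.card := lt_of_lt_of_le (by positivity) hG1c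
  have hGbpos : (0 : ℝ) < (Gb b).card := by
    by_contra hcon
    have h1 : ((Gb b).card : ℝ) = 0 := le_antisymm (not_lt.1 hcon) (Nat.cast_nonneg _)
    rw [h1, mul_zero] at hb
    linarith
  obtain ⟨y1, hy1⟩ : (Gb b).Nonempty := Finset.card_pos.1 (by exact_mod_cast hGbpos)
  have hYc : c / 4 * ((Δ * u : ℕ) : ℝ) ≤ (Y ∩ Blk hdims b).card := (Finset.mem_filter.1 hy1).2.1
  obtain ⟨Y', hY'⟩ : ∃ Y', Y' = Y ∩ Blk hdims b := ⟨_, rfl⟩
  rw [← hY'] at hYc
  have hGbR : ∀ y ∈ Gb b, Right hdims y := fun y hy => by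
    have h1 := (Finset.mem_filter.1 hy).1
    rw [hG1] at h1
    exact hGR y (Finset.mem_filter.1 h1).1
  -- the dense slice
  have hdense : (2 : ℝ) ^ Y'.card * Real.exp (-(ε0 * Y'.card)) *
      (((Finset.univ.filter (fun y : Fin N → Bool => Right hdims y)).card : ℝ) * 2 ^ u) <
      (Gb b).card * 2 ^ Y'.card := by
    rw [← hZ]
    have h1 : 4 * (u : ℝ) ≤ ε0 * Y'.card := by
      have h2 : (16 : ℝ) ≤ Δ * (ε0 * c) := hΔ1
      have h3 : ε0 * (c / 4 * ((Δ * u : ℕ) : ℝ)) ≤ ε0 * Y'.card :=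
        mul_le_mul_of_nonneg_left hYc hε0.le
      have h4 : ε0 * (c / 4 * ((Δ * u : ℕ) : ℝ)) = (Δ * (ε0 * c)) / 4 * u := by push_cast; ring
      have h5 : 4 * (u : ℝ) ≤ (Δ * (ε0 * c)) / 4 * u := by
        apply mul_le_mul_of_nonneg_right _ hupos.le
        linarith
      linarith
    have h2 : Real.exp (-(ε0 * Y'.card)) ≤ 2 ^ (-(4 * (u : ℝ))) := by
      rw [Real.rpow_def_of_pos (by norm_num)]
      apply Real.exp_le_exp.2
      have h3 : Real.log 2 < 1 := by
        have := Real.log_two_lt_d9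
        linarith
      nlinarith
    have h3 : (1 : ℝ) * (2 * B) < 2 ^ u := by
      have h4 : 2 * B < 2 ^ u := lt_of_le_of_lt (by omega : 2 * B ≤ u) Nat.lt_two_pow_self
      rw [one_mul]
      exact_mod_cast h4
    -- lower bound for Gb
    have h5 : E * Z.card ≤ 2 * B * (Gb b).card := by
      have h6 : E / 2 * Z.card ≤ B * (Gb b).card := hG1c.trans hb
      linarith
    have h6 : (2 : ℝ) ^ (-((u : ℝ) / 2)) * Z.card ≤ 2 * B * (Gb b).card :=
      (mul_le_mul_of_nonneg_right hElow hZr.le).trans h5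
    have h7 : (2 : ℝ) ^ (-((u : ℝ) / 2)) * Z.card < 2 ^ u * (Gb b).card := by
      refine lt_of_le_of_lt h6 ?_
      rw [one_mul] at h3
      exact mul_lt_mul_of_pos_right h3 hGbpos
    have h8 : (0 : ℝ) < 2 ^ Y'.card := by positivity
    have h9 : Real.exp (-(ε0 * Y'.card)) * (Z.card * 2 ^ u) < (Gb b).card := by
      calc Real.exp (-(ε0 * Y'.card)) * (Z.card * 2 ^ u)
          ≤ 2 ^ (-(4 * (u : ℝ))) * (Z.card * 2 ^ u) :=
            mul_le_mul_of_nonneg_right h2 (by positivity)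
        _ = (2 ^ (-((u : ℝ) / 2)) * Z.card) * 2 ^ (-(5 / 2 * (u : ℝ))) := by
            have e1 : (2 : ℝ) ^ u = 2 ^ (u : ℝ) := (Real.rpow_natCast 2 u).symm
            rw [e1]
            have e2 : (2 : ℝ) ^ (-(4 * (u : ℝ))) * 2 ^ (u : ℝ) =
                2 ^ (-((u : ℝ) / 2)) * 2 ^ (-(5 / 2 * (u : ℝ))) := by
              rw [← Real.rpow_add (by norm_num), ← Real.rpow_add (by norm_num)]
              congr 1
              ring
            calc (2 : ℝ) ^ (-(4 * (u : ℝ))) * (Z.card * 2 ^ (u : ℝ))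
                = ((2 : ℝ) ^ (-(4 * (u : ℝ))) * 2 ^ (u : ℝ)) * Z.card := by ring
              _ = _ := by rw [e2]; ring
        _ < (2 ^ u * (Gb b).card) * 2 ^ (-(5 / 2 * (u : ℝ))) :=
            mul_lt_mul_of_pos_right h7 (by positivity)
        _ = (Gb b).card * 2 ^ (-(3 / 2 * (u : ℝ))) := by
            have e1 : (2 : ℝ) ^ u = 2 ^ (u : ℝ) := (Real.rpow_natCast 2 u).symm
            rw [e1]
            have e2 : (2 : ℝ) ^ (u : ℝ) * 2 ^ (-(5 / 2 * (u : ℝ))) = 2 ^ (-(3 / 2 * (u : ℝ))) := by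
              rw [← Real.rpow_add (by norm_num)]
              congr 1
              ring
            calc (2 : ℝ) ^ (u : ℝ) * (Gb b).card * 2 ^ (-(5 / 2 * (u : ℝ)))
                = (Gb b).card * (2 ^ (u : ℝ) * 2 ^ (-(5 / 2 * (u : ℝ)))) := by ring
              _ = _ := by rw [e2]
        _ ≤ (Gb b).card * 1 := by
            apply mul_le_mul_of_nonneg_left _ hGbpos.le
            apply Real.rpow_le_one_of_one_le_of_nonpos (by norm_num)
            linarith
        _ = (Gb b).card := mul_one _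
    calc (2 : ℝ) ^ Y'.card * Real.exp (-(ε0 * Y'.card)) * (Z.card * 2 ^ u)
        = 2 ^ Y'.card * (Real.exp (-(ε0 * Y'.card)) * (Z.card * 2 ^ u)) := by ring
      _ < 2 ^ Y'.card * (Gb b).card := mul_lt_mul_of_pos_left h9 h8
      _ = _ := by ring
  obtain ⟨base, hbase⟩ := exists_slice hdims b Y' (by rw [hY']; exact Finset.inter_subset_right)
    (Gb b) hGbR (by positivity) hdense
  refine ⟨Y', by rw [hY']; exact Finset.inter_subset_left, ?_, base, ?_, ?_⟩
  · -- size
    have h1 : c / (8 * (D : ℝ)) * N ≤ c / 4 * u := by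
      calc c / (8 * (D : ℝ)) * N ≤ c / (8 * (D : ℝ)) * (2 * (D * u)) :=
            mul_le_mul_of_nonneg_left hN2 (by positivity)
        _ = c / 4 * u := by field_simp; ring
    have h2 : c / 4 * (u : ℝ) ≤ c / 4 * ((Δ * u : ℕ) : ℝ) := by
      apply mul_le_mul_of_nonneg_left _ (by positivity)
      exact_mod_cast Nat.le_mul_of_pos_left u hΔ4
    linarith
  · -- rectangle-free
    have h1 : 0 < (Finset.univ.filter (fun x : Fin Y'.card → Bool => paste Y' base x ∈ Gb b)).card := by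
      have : (0 : ℝ) < ((Finset.univ.filter (fun x : Fin Y'.card → Bool =>
          paste Y' base x ∈ Gb b)).card : ℝ) := lt_of_lt_of_le (by positivity) hbase
      exact_mod_cast this
    obtain ⟨x0, hx0⟩ := Finset.card_pos.1 h1
    have hx1 := (Finset.mem_filter.1 hx0).2
    have hx2 := (Finset.mem_filter.1 hx1).1
    rw [hG1] at hx2
    have hx3 := (Finset.mem_filter.1 hx2).2
    have h2 := slice_rectFree hdims b Y' (by rw [hY']; exact Finset.inter_subset_right) base x0 hx3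
    have h3 : {x : Fin Y'.card → Bool | lang (t * t) M Δ B (List.ofFn (paste Y' base x))} =
        {x : Fin Y'.card → Bool | Right hdims (paste Y' base x)} := by
      ext x
      exact hL _
    rw [h3]
    exact h2
  · refine hbase.trans ?_
    have h1 : (Finset.univ.filter (fun x : Fin Y'.card → Bool => paste Y' base x ∈ Gb b)) ⊆
        (Finset.univ.filter (fun x : Fin Y'.card → Bool => paste Y' base x ∈ G ∧
            ∑ i ∈ Y', wt (paste Y' base x) i ≤ k' * Y'.card)) := by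
      intro x hx
      have h2 := Finset.mem_filter.1 (Finset.mem_filter.1 hx).2
      refine Finset.mem_filter.2 ⟨Finset.mem_univ _, ?_, ?_⟩
      · have h3 := h2.1
        rw [hG1] at h3
        exact (Finset.mem_filter.1 h3).1
      · have h3 := h2.2.2
        revert h3
        generalize paste Y' base x = z
        intro h3
        rw [hY']
        exact h3
    exact_mod_cast Finset.card_le_card h1

end Pool.Agent.PL44
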