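import Pool.Agent.PL44.Lang
import Pool.Agent.JT.Hash2

/-! Few seeds give a hash value whose preimage contains a rectangle. -/

namespace Pool.Agent.PL44

open Pool.Agent.JT
open PowerSeries (coeff)
open Pool.Agent.SemRO (mix RectFree)

lemma zb_decide (z : ZMod 2) : zb (decide (z = 1)) = z := by
  revert z; decide

open Classical in
lemma card_fiber {A B : Type*} [AddCommGroup A] [AddCommGroup B] [Fintype A] [Fintype B]
    (f : A →+ B) (hf : Function.Surjective f) (b : B) :
    (Finset.univ.filter (fun a => f a = b)).card * Fintype.card B = Fintype.card A := by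
  rw [← card_ker f hf]
  congr 1
  exact AddMonoidHom.card_fiber_eq_of_mem_range f (hf b) (hf 0)

open Classical in
/-- the hash values of `k` different words are independent -/
lemma count_k {n m k l : ℕ} (hm : n * k * k + l ≤ m) (x : Fin k → Fin n → Bool)
    (hx : Function.Injective x) (s : Fin k → Fin l → Bool) :
    (Finset.univ.filter (fun a : Fin k → Fin m → Bool => ∀ i, hv l a (x i) = s i)).card *
      2 ^ (l * k) = 2 ^ (k * m) := by
  let f : (Fin k → Fin m → ZMod 2) →+ (Fin k → Fin l → ZMod 2) :=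
    { toFun := fun a i c => coeff (m - 1 - c) (pval a (fun s => zb (x i s)))
      map_zero' := by
        funext i c
        simp only [pval, Pi.zero_apply]
        have : ser (0 : Fin m → ZMod 2) = 0 := by
          ext i; rw [coeff_ser]; split_ifs <;> simp
        simp [this]
      map_add' := by
        intro a b
        funext i c
        simp only [Pi.add_apply, pval_add, map_add] }
  have hf : Function.Surjective f := by
    intro y
    obtain ⟨a, ha⟩ := pval_surj hm (fun i s => zb (x i s)) (by
      intro i j hij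
      apply hx
      funext s
      exact zb_inj (congrFun hij s)) y
    exact ⟨a, funext fun i => funext fun c => ha i c⟩
  have h1 := card_fiber f hf (fun i c => zb (s i c))
  rw [Fintype.card_fun, Fintype.card_fun, Fintype.card_fun, Fintype.card_fun, ZMod.card,
    Fintype.card_fin, Fintype.card_fin, Fintype.card_fin, ← pow_mul, ← pow_mul] at h1
  rw [mul_comm k m, ← h1]
  congr 1
  rw [← card_bool (fun a => f a = fun i c => zb (s i c))]
  congr 1
  ext a
  simp only [Finset.mem_filter, Finset.mem_univ, true_and]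
  constructor
  · intro h
    funext i c
    rw [← h i]
    unfold hv
    rw [zb_decide]
    rfl
  · intro h i
    funext c
    have h2 := congrFun (congrFun h i) c
    apply zb_inj
    rw [← h2]
    unfold hv
    rw [zb_decide]
    rfl

/-- seeds for which the preimage of some hash value contains a rectangle -/
def Bad (n t l m : ℕ) (a : Fin (t * t) → Fin m → Bool) : Prop :=
  ∃ s : Fin l → Bool, ¬ RectFree {x : Fin n → Bool | hv l a x = s} t

open Classical in
/-- few seeds are bad -/
theorem bad_seeds (t n l m : ℕ) (hm : n * (t * t) * (t * t) + l ≤ m) :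
    (Finset.univ.filter (fun a : Fin (t * t) → Fin m → Bool => Bad n t l m a)).card *
      2 ^ (l * (t * t)) ≤ 2 ^ (n * (2 * t + 1) + l) * 2 ^ (t * t * m) := by
  let Tr := (Finset (Fin n) × (Fin t → Fin n → Bool) × (Fin t → Fin n → Bool)) × (Fin l → Bool)
  have hTr : Fintype.card Tr = 2 ^ (n * (2 * t + 1) + l) := by
    simp only [Tr, Fintype.card_prod, Fintype.card_finset, Fintype.card_fun, Fintype.card_bool,
      Fintype.card_fin]
    rw [← pow_mul, ← pow_add, ← pow_add, ← pow_add]
    congr 1
    ring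
  let Val : Finset Tr := Finset.univ.filter (fun ρ =>
    (∀ i j, i ≠ j → ∃ x ∈ ρ.1.1, ρ.1.2.1 i x ≠ ρ.1.2.1 j x) ∧
    (∀ i j, i ≠ j → ∃ x, x ∉ ρ.1.1 ∧ ρ.1.2.2 i x ≠ ρ.1.2.2 j x))
  have hsub : (Finset.univ.filter (fun a : Fin (t * t) → Fin m → Bool => Bad n t l m a)) ⊆
      Val.biUnion (fun ρ => Finset.univ.filter (fun a : Fin (t * t) → Fin m → Bool =>
      ∀ s : Fin (t * t), hv l a (mix ρ.1.1 (ρ.1.2.1 (finProdFinEquiv.symm s).1)
        (ρ.1.2.2 (finProdFinEquiv.symm s).2)) = ρ.2)) := by
    intro a ha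
    obtain ⟨s0, ha'⟩ := (Finset.mem_filter.1 ha).2
    unfold RectFree at ha'
    push Not at ha'
    obtain ⟨S, u, v, hu, hv', hF⟩ := ha'
    refine Finset.mem_biUnion.2 ⟨((S, u, v), s0), Finset.mem_filter.2 ⟨Finset.mem_univ _, hu, hv'⟩,
      Finset.mem_filter.2 ⟨Finset.mem_univ _, fun s => hF _ _⟩⟩
  calc _ ≤ (∑ ρ ∈ Val, (Finset.univ.filter
        (fun a : Fin (t * t) → Fin m → Bool =>
          ∀ s : Fin (t * t), hv l a (mix ρ.1.1 (ρ.1.2.1 (finProdFinEquiv.symm s).1)
        (ρ.1.2.2 (finProdFinEquiv.symm s).2)) = ρ.2)).card) * 2 ^ (l * (t * t)) :=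
        Nat.mul_le_mul_right _ ((Finset.card_le_card hsub).trans Finset.card_biUnion_le)
    _ = ∑ ρ ∈ Val, 2 ^ (t * t * m) := by
        rw [Finset.sum_mul]
        refine Finset.sum_congr rfl fun ρ hρ => ?_
        obtain ⟨_, hu, hv'⟩ := Finset.mem_filter.1 hρ
        exact count_k hm _ (mix_inj hu hv') (fun _ => ρ.2)
    _ = Val.card * 2 ^ (t * t * m) := by rw [Finset.sum_const, smul_eq_mul]
    _ ≤ 2 ^ (n * (2 * t + 1) + l) * 2 ^ (t * t * m) := by
        apply Nat.mul_le_mul_right
        rw [← hTr]
        exact Finset.card_le_univ _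

end Pool.Agent.PL44
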